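import Pool.Agent.Q92.GX.Poi1
import Pool.Agent.Q260.GX.Spec2

/-! # Project GX of helper260: job POI -/

set_option autoImplicit false

namespace Pool.Agent.Q92.GX

open Complex
open Pool.Agent.Q68.HV (Pk)
open Pool.Agent.Q260.GX (S_POI)
open Pool.Agent.Q260.GM (pk)

theorem t_POI : S_POI := by
  intro X hd hsym hne hgr hzer
  exact poi_core (X := X) ⟨hd, hsym, hne, hgr, hzer⟩

end Pool.Agent.Q92.GX
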