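import Pool.Agent.Q68.HV.ZG

/-! # Project GX of helper260: job POI, first part: removing zeros, inequalities from polynomials -/

set_option autoImplicit false

namespace Pool.Agent.Q92.GX

open Complex Filter Topology Polynomial Metric
open Pool.Agent.Q68.HV

/-- the hypotheses -/
structure Hy (X : ℂ → ℂ) : Prop where
  diff : Differentiable ℂ X
  sym : ∀ z : ℂ, X (-((starRingEnd ℂ) z)) = (starRingEnd ℂ) (X z)
  ne : ∃ z, X z ≠ 0
  gr : ∃ K : ℝ, 0 < K ∧ ∀ z : ℂ, ‖X z‖ ≤ Real.exp (K * (1 + ‖z‖) ^ (3 / 2 : ℝ))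
  zer : ∀ s : ℂ, X s = 0 → s.re = 0

lemma Hy.ne_zero {X : ℂ → ℂ} (h : Hy X) {z : ℂ} (hz : 0 < z.re) : X z ≠ 0 := fun h0 => by
  have := h.zer z h0
  linarith

lemma Hy.order_ne_top {X : ℂ → ℂ} (h : Hy X) (z : ℂ) : analyticOrderAt X z ≠ ⊤ := by
  intro ht
  rw [analyticOrderAt_eq_top] at ht
  obtain ⟨w, hw⟩ := h.ne
  have han : AnalyticOnNhd ℂ X Set.univ := fun z _ => h.diff.analyticAt z
  exact hw (han.eqOn_zero_of_preconnected_of_eventuallyEq_zero isPreconnected_univ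
    (Set.mem_univ z) ht (Set.mem_univ w))

/-- one zero is removed -/
lemma Hy.split1 {X : ℂ → ℂ} (h : Hy X) {ρ : ℂ} (hρ : X ρ = 0) :
    ∃ Y, Hy Y ∧ ∀ z, X z = (-I * (z - ρ)) * Y z := by
  have hre : ρ.re = 0 := h.zer ρ hρ
  have hconj : (starRingEnd ℂ) ρ = -ρ := by
    apply Complex.ext <;> simp [hre]
  have hd : Differentiable ℂ (dslope X ρ) := by
    rw [← differentiableOn_univ, Complex.differentiableOn_dslope univ_mem, differentiableOn_univ]
    exact h.diff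
  have hY : ∀ z, X z = (-I * (z - ρ)) * (I * dslope X ρ z) := by
    intro z
    have h1 := sub_smul_dslope X ρ z
    rw [smul_eq_mul, hρ, sub_zero] at h1
    rw [← h1]
    have := Complex.I_mul_I
    linear_combination ((z - ρ) * dslope X ρ z) * this
  refine ⟨fun z => I * dslope X ρ z, ⟨by fun_prop, ?_, ?_, ?_, ?_⟩, hY⟩
  · -- symmetry
    have hc : Continuous (dslope X ρ) := hd.continuous
    have h1 : (fun z : ℂ => I * dslope X ρ (-((starRingEnd ℂ) z))) =
        fun z => (starRingEnd ℂ) (I * dslope X ρ z) := by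
      refine Continuous.ext_on (dense_compl_singleton ρ) (by fun_prop) (by fun_prop) ?_
      intro z hz
      simp only
      have h2 := h.sym z
      rw [hY z, hY (-((starRingEnd ℂ) z)), map_mul] at h2
      have h3 : (starRingEnd ℂ) (-I * (z - ρ)) = -I * (-((starRingEnd ℂ) z) - ρ) := by
        rw [map_mul, map_neg, map_sub, Complex.conj_I, hconj]
        ring
      rw [h3] at h2
      refine mul_left_cancel₀ ?_ h2
      refine mul_ne_zero (neg_ne_zero.mpr Complex.I_ne_zero) ?_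
      intro h4
      apply hz
      have h5 : (starRingEnd ℂ) z = -ρ := by linear_combination -h4
      have h6 := congrArg (starRingEnd ℂ) h5
      rw [Complex.conj_conj, map_neg, hconj, neg_neg] at h6
      exact h6
    exact fun z => congrFun h1 z
  · obtain ⟨z, hz⟩ := h.ne
    refine ⟨z, fun h0 => hz ?_⟩
    rw [hY z, h0, mul_zero]
  · -- growth
    obtain ⟨K, hK, hb⟩ := h.gr
    have hc : Continuous fun z => I * dslope X ρ z := by
      have := hd.continuous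
      fun_prop
    obtain ⟨C, hC⟩ := (isCompact_closedBall ρ 1).exists_bound_of_continuousOn hc.continuousOn
    refine ⟨K + |C|, by positivity, fun z => ?_⟩
    have h1 : (1 : ℝ) ≤ (1 + ‖z‖) ^ (3 / 2 : ℝ) :=
      Real.one_le_rpow (by linarith [norm_nonneg z]) (by norm_num)
    by_cases hz : z ∈ closedBall ρ 1
    · refine (hC z hz).trans ?_
      calc C ≤ |C| := le_abs_self C
        _ ≤ Real.exp |C| := by linarith [Real.add_one_le_exp |C|]
        _ ≤ _ := Real.exp_le_exp.mpr (by nlinarith [abs_nonneg C])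
    · rw [mem_closedBall, not_le, dist_eq_norm] at hz
      have h2 := hb z
      rw [hY z, norm_mul, norm_mul, norm_neg, Complex.norm_I, one_mul] at h2
      have h3 : ‖I * dslope X ρ z‖ ≤ ‖z - ρ‖ * ‖I * dslope X ρ z‖ :=
        le_mul_of_one_le_left (norm_nonneg _) hz.le
      refine (h3.trans h2).trans (Real.exp_le_exp.mpr ?_)
      nlinarith [abs_nonneg C]
  · intro s hs
    apply h.zer
    rw [hY s, hs, mul_zero]

lemma order_split {X Y : ℂ → ℂ} {ρ : ℂ} (hX : Hy X) (hY : Hy Y)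
    (h : ∀ z, X z = (-I * (z - ρ)) * Y z) :
    analyticOrderNatAt X ρ = analyticOrderNatAt Y ρ + 1 ∧
    ∀ w, w ≠ ρ → analyticOrderNatAt X w = analyticOrderNatAt Y w := by
  have e : X = ((fun _ : ℂ => -I) * (fun z : ℂ => z - ρ)) * Y := by
    funext z
    rw [h z]
    rfl
  have hc : ∀ w : ℂ, analyticOrderAt (fun _ : ℂ => -I) w = 0 := by
    intro w
    rw [AnalyticAt.analyticOrderAt_eq_zero analyticAt_const]
    exact neg_ne_zero.mpr Complex.I_ne_zero
  have ho : ∀ w, analyticOrderAt X w =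
      analyticOrderAt (fun z : ℂ => z - ρ) w + analyticOrderAt Y w := by
    intro w
    conv_lhs => rw [e]
    rw [analyticOrderAt_mul (by fun_prop) (hY.diff.analyticAt w),
      analyticOrderAt_mul analyticAt_const (by fun_prop), hc w, zero_add]
  constructor
  · have h1 := ho ρ
    rw [analyticOrderAt_id_sub_const_self] at h1
    have h2 := Nat.cast_analyticOrderNatAt (hX.order_ne_top ρ)
    have h3 := Nat.cast_analyticOrderNatAt (hY.order_ne_top ρ)
    rw [← h2, ← h3] at h1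
    have h4 : ((analyticOrderNatAt X ρ : ℕ) : ℕ∞) = ((analyticOrderNatAt Y ρ + 1 : ℕ) : ℕ∞) := by
      rw [h1]
      push_cast
      ring
    exact_mod_cast h4
  · intro w hw
    have h1 := ho w
    rw [analyticOrderAt_id_sub_const_of_ne hw, zero_add] at h1
    unfold analyticOrderNatAt
    rw [h1]

lemma logDeriv_split {X Y : ℂ → ℂ} {ρ : ℂ} (hY : Hy Y) (h : ∀ z, X z = (-I * (z - ρ)) * Y z)
    (hρ : ρ.re = 0) {z : ℂ} (hz : 0 < z.re) :
    logDeriv X z = 1 / (z - ρ) + logDeriv Y z := by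
  have hne : z - ρ ≠ 0 := by
    intro h0
    have h1 := congrArg Complex.re h0
    rw [Complex.sub_re, hρ, sub_zero, Complex.zero_re] at h1
    linarith
  have e : X = fun z => (fun z : ℂ => -I * (z - ρ)) z * Y z := funext h
  have hne2 : (fun z : ℂ => -I * (z - ρ)) z ≠ 0 :=
    mul_ne_zero (neg_ne_zero.mpr Complex.I_ne_zero) hne
  rw [e, logDeriv_mul (f := fun z : ℂ => -I * (z - ρ)) (g := Y) z hne2 (hY.ne_zero hz)
    (by fun_prop) (hY.diff z)]
  congr 1
  rw [logDeriv_apply]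
  have hd : deriv (fun z : ℂ => -I * (z - ρ)) z = -I := by
    have h1 : HasDerivAt (fun z : ℂ => -I * (z - ρ)) (-I * 1) z :=
      ((hasDerivAt_id z).sub_const ρ).const_mul (-I)
    rw [h1.deriv, mul_one]
  rw [hd]
  have := Complex.I_ne_zero
  field_simp

/-- all the zeros at `ρ` are removed -/
lemma removeA {ρ : ℂ} (hρ : ρ.re = 0) : ∀ (m : ℕ) (X : ℂ → ℂ), Hy X → analyticOrderNatAt X ρ = m →
    ∃ Y, Hy Y ∧ (∀ z : ℂ, 0 < z.re → logDeriv X z = (m : ℂ) * (1 / (z - ρ)) + logDeriv Y z) ∧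
      Y ρ ≠ 0 ∧ (∀ w, w ≠ ρ → analyticOrderNatAt X w = analyticOrderNatAt Y w) ∧
      (∀ z, Y z = 0 → X z = 0) := by
  intro m
  induction m with
  | zero =>
    intro X hX h0
    refine ⟨X, hX, fun z _ => by simp, ?_, fun _ _ => rfl, fun _ h => h⟩
    have h1 := Nat.cast_analyticOrderNatAt (hX.order_ne_top ρ)
    rw [h0, Nat.cast_zero] at h1
    exact (AnalyticAt.analyticOrderAt_eq_zero (hX.diff.analyticAt ρ)).mp h1.symm
  | succ m ih =>
    intro X hX h0
    have hz : X ρ = 0 := by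
      by_contra hne
      have h1 := (AnalyticAt.analyticOrderAt_eq_zero (hX.diff.analyticAt ρ)).mpr hne
      unfold analyticOrderNatAt at h0
      rw [h1] at h0
      simp at h0
    obtain ⟨X1, hX1, hs⟩ := hX.split1 hz
    obtain ⟨ho1, ho2⟩ := order_split hX hX1 hs
    obtain ⟨Y, hY, h2, h3, h4, h5⟩ := ih X1 hX1 (by omega)
    refine ⟨Y, hY, fun z hz' => ?_, h3, fun w hw => ?_, fun z hz' => ?_⟩
    · rw [logDeriv_split hX1 hs hρ hz', h2 z hz']
      push_cast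
      ring
    · rw [ho2 w hw, h4 w hw]
    · rw [hs z, h5 z hz', mul_zero]

/-- the zeros in a finite set are removed -/
lemma removeF {X : ℂ → ℂ} (hX : Hy X) (F : Finset ℂ) (hF : ∀ ρ ∈ F, ρ.re = 0) :
    ∃ Y, Hy Y ∧ (∀ z : ℂ, 0 < z.re → logDeriv X z =
        ∑ ρ ∈ F, (analyticOrderNatAt X ρ : ℂ) * (1 / (z - ρ)) + logDeriv Y z) ∧
      (∀ ρ ∈ F, Y ρ ≠ 0) ∧ (∀ w, w ∉ F → analyticOrderNatAt X w = analyticOrderNatAt Y w) ∧
      (∀ z, Y z = 0 → X z = 0) := by
  classical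
  induction F using Finset.induction_on with
  | empty => exact ⟨X, hX, fun z _ => by simp, by simp, fun _ _ => rfl, fun _ h => h⟩
  | insert ρ F hρF ih =>
    obtain ⟨Y, hY, h1, h2, h3, h4⟩ := ih fun ρ' h => hF ρ' (Finset.mem_insert_of_mem h)
    obtain ⟨Z, hZ, g1, g2, g3, g4⟩ := removeA (hF ρ (Finset.mem_insert_self _ _))
      (analyticOrderNatAt X ρ) Y hY (h3 ρ hρF).symm
    refine ⟨Z, hZ, fun z hz => ?_, ?_, ?_, fun z hz => h4 z (g4 z hz)⟩
    · rw [h1 z hz, g1 z hz, Finset.sum_insert hρF]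
      ring
    · intro ρ' h'
      rcases Finset.mem_insert.mp h' with rfl | h5
      · exact g2
      · exact fun h6 => h2 ρ' h5 (g4 ρ' h6)
    · intro w hw
      rw [Finset.mem_insert, not_or] at hw
      rw [h3 w hw.2, g3 w hw.1]

/-! ### inequalities from polynomials -/

lemma Hy.lim {X : ℂ → ℂ} (hX : Hy X) {Q : ℕ → ℂ[X]}
    (hlim : TendstoLocallyUniformly (fun (N : ℕ) (w : ℂ) => (Q N).eval w) X atTop) {z : ℂ}
    (hz : 0 < z.re) : Tendsto (fun n => logDeriv (fun w => (Q n).eval w) z) atTop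
      (𝓝 (logDeriv X z)) :=
  Complex.logDeriv_tendsto isOpen_univ (Set.mem_univ z)
    (hlim.tendstoLocallyUniformlyOn (s := Set.univ))
    (Eventually.of_forall fun n => (Q n).differentiable.differentiableOn) (hX.ne_zero hz)

lemma logDeriv_poly (p : ℂ[X]) (hp : ∀ z, p.IsRoot z → z.re = 0) {z : ℂ} (hz : 0 < z.re) :
    logDeriv (fun w => p.eval w) z = (p.roots.map fun r => 1 / (z - r)).sum := by
  have hpz : p.eval z ≠ 0 := fun h => by
    have := hp _ h
    linarith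
  rw [logDeriv_apply, Polynomial.deriv, (IsAlgClosed.splits p).eval_derivative_div_eval_of_ne_zero hpz]

lemma re_poly' (p : ℂ[X]) (hp : ∀ z, p.IsRoot z → z.re = 0) {x : ℝ} (hx : 0 < x) (t : ℝ) :
    (logDeriv (fun w => p.eval w) ⟨x, t⟩).re = (p.roots.map fun r => Pk x (t - r.im)).sum := by
  rw [logDeriv_poly p hp (z := ⟨x, t⟩) hx]
  have h3 : ((Multiset.map (fun r => 1 / ((⟨x, t⟩ : ℂ) - r)) p.roots).sum).re =
      (Multiset.map (fun r => (1 / ((⟨x, t⟩ : ℂ) - r)).re) p.roots).sum := by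
    have := map_multiset_sum Complex.reLm (Multiset.map (fun r => 1 / ((⟨x, t⟩ : ℂ) - r)) p.roots)
    rw [Multiset.map_map] at this
    exact this
  rw [h3]
  congr 1
  refine Multiset.map_congr rfl ?_
  intro r hr
  have h4 : p.IsRoot r := (Polynomial.mem_roots'.mp hr).2
  have h5 := hp r h4
  rw [one_div, Complex.inv_re, Complex.normSq_apply, Complex.sub_re, Complex.sub_im, h5, sub_zero]
  unfold Pk
  rw [sq, sq]

/-- the logarithmic derivative has nonnegative real part -/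
lemma Hy.pos {X : ℂ → ℂ} (hX : Hy X) {x : ℝ} (hx : 0 < x) (t : ℝ) :
    0 ≤ (logDeriv X ⟨x, t⟩).re := by
  obtain ⟨Q, hQ, hlim⟩ := had_im hX.diff hX.sym hX.ne hX.gr hX.zer
  have h1 := (Complex.continuous_re.tendsto _).comp (hX.lim hlim (z := ⟨x, t⟩) hx)
  refine ge_of_tendsto' h1 fun n => ?_
  show 0 ≤ (logDeriv (fun w => (Q n).eval w) ⟨x, t⟩).re
  rw [re_poly' (Q n) (hQ n) hx]
  refine Multiset.sum_nonneg ?_
  intro y hy
  rw [Multiset.mem_map] at hy
  obtain ⟨r, -, rfl⟩ := hy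
  exact Pk_nonneg hx _

/-- the third inequality -/
lemma Hy.dist {X : ℂ → ℂ} (hX : Hy X) {x : ℝ} (hx : 0 < x) (hx1 : x ≤ 1) (t : ℝ) :
    ‖logDeriv X ⟨x, t⟩ - logDeriv X ⟨1, t⟩‖ ≤ 1 / x * (logDeriv X ⟨1, t⟩).re := by
  obtain ⟨Q, hQ, hlim⟩ := had_im hX.diff hX.sym hX.ne hX.gr hX.zer
  have h1 := hX.lim hlim (z := ⟨x, t⟩) hx
  have h2 := hX.lim hlim (z := ⟨1, t⟩) one_pos
  refine le_of_tendsto_of_tendsto' (h1.sub h2).norm
    (((Complex.continuous_re.tendsto _).comp h2).const_mul (1 / x)) fun n => ?_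
  show ‖logDeriv (fun w => (Q n).eval w) ⟨x, t⟩ - logDeriv (fun w => (Q n).eval w) ⟨1, t⟩‖ ≤
    1 / x * (logDeriv (fun w => (Q n).eval w) ⟨1, t⟩).re
  rw [re_poly' (Q n) (hQ n) one_pos, logDeriv_poly (Q n) (hQ n) (z := ⟨x, t⟩) hx,
    logDeriv_poly (Q n) (hQ n) (z := ⟨1, t⟩) one_pos, ← Multiset.sum_map_sub,
    ← Multiset.sum_map_mul_left]
  refine (norm_multiset_sum_le _).trans ?_
  rw [Multiset.map_map]
  refine Multiset.sum_map_le_sum_map _ _ fun r hr => ?_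
  have h4 : r.re = 0 := hQ n r (Polynomial.mem_roots'.mp hr).2
  show ‖1 / ((⟨x, t⟩ : ℂ) - r) - 1 / ((⟨1, t⟩ : ℂ) - r)‖ ≤ 1 / x * Pk 1 (t - r.im)
  set a : ℂ := (⟨x, t⟩ : ℂ) - r with ha
  set b : ℂ := (⟨1, t⟩ : ℂ) - r with hb
  have ha2 : ‖a‖ ^ 2 = x ^ 2 + (t - r.im) ^ 2 := by
    rw [← Complex.normSq_eq_norm_sq, Complex.normSq_apply, ha, Complex.sub_re, Complex.sub_im, h4]
    ring
  have hb2 : ‖b‖ ^ 2 = 1 ^ 2 + (t - r.im) ^ 2 := by
    rw [← Complex.normSq_eq_norm_sq, Complex.normSq_apply, hb, Complex.sub_re, Complex.sub_im, h4]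
    ring
  have hb0 : 0 < ‖b‖ := by
    by_contra hcon
    have : ‖b‖ = 0 := le_antisymm (not_lt.mp hcon) (norm_nonneg _)
    rw [this] at hb2
    nlinarith [sq_nonneg (t - r.im)]
  have hab : x * ‖b‖ ≤ ‖a‖ := by
    apply le_of_sq_le_sq _ (norm_nonneg _)
    rw [mul_pow, ha2, hb2]
    nlinarith [sq_nonneg (t - r.im), mul_nonneg (sub_nonneg.mpr hx1) (sq_nonneg (t - r.im)),
      mul_nonneg hx.le (mul_nonneg (sub_nonneg.mpr hx1) (sq_nonneg (t - r.im)))]
  have ha0 : 0 < ‖a‖ := lt_of_lt_of_le (by positivity) hab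
  have hne1 : a ≠ 0 := norm_pos_iff.mp ha0
  have hne2 : b ≠ 0 := norm_pos_iff.mp hb0
  have e : 1 / a - 1 / b = (b - a) / (a * b) := by
    field_simp
  have hba : ‖b - a‖ ≤ 1 := by
    have : b - a = ((1 - x : ℝ) : ℂ) := by
      rw [ha, hb]
      apply Complex.ext <;> simp
    rw [this, Complex.norm_real, Real.norm_eq_abs, abs_of_nonneg (by linarith)]
    linarith
  rw [e, norm_div, norm_mul]
  unfold Pk
  rw [← hb2, div_mul_div_comm, div_le_div_iff₀ (by positivity) (by positivity)]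
  calc ‖b - a‖ * (x * ‖b‖ ^ 2) ≤ 1 * (x * ‖b‖ ^ 2) :=
        mul_le_mul_of_nonneg_right hba (by positivity)
    _ = (x * ‖b‖) * ‖b‖ := by ring
    _ ≤ ‖a‖ * ‖b‖ := mul_le_mul_of_nonneg_right hab hb0.le
    _ = 1 * 1 * (‖a‖ * ‖b‖) := by ring

/-- the upper bound if there are no zeros near the origin -/
lemma Hy.upper {X : ℂ → ℂ} (hX : Hy X) {x : ℝ} (hx : 0 < x) (t : ℝ) {R M : ℝ} (hR : 0 ≤ R)
    (hno : ∀ y : ℝ, |y| ≤ R → X ⟨0, y⟩ ≠ 0) (hM : ∀ γ : ℝ, R < |γ| → Pk x (t - γ) ≤ M * Pk 1 (0 - γ)) :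
    (logDeriv X ⟨x, t⟩).re ≤ M * (logDeriv X ⟨1, 0⟩).re := by
  obtain ⟨Q, hQ, hlim⟩ := had_im hX.diff hX.sym hX.ne hX.gr hX.zer
  have h1 := (Complex.continuous_re.tendsto _).comp (hX.lim hlim (z := ⟨x, t⟩) hx)
  have h2 := (Complex.continuous_re.tendsto _).comp (hX.lim hlim (z := ⟨1, 0⟩) one_pos)
  -- the compact set
  set S : Set ℂ := (fun y : ℝ => (⟨0, y⟩ : ℂ)) '' Set.Icc (-R) R with hS
  have hcont : Continuous fun y : ℝ => (⟨0, y⟩ : ℂ) := by
    have : (fun y : ℝ => (⟨0, y⟩ : ℂ)) = fun y : ℝ => (y : ℂ) * I := by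
      funext y
      apply Complex.ext <;> simp
    rw [this]
    fun_prop
  have hSc : IsCompact S := isCompact_Icc.image hcont
  have hSn : S.Nonempty := ⟨⟨0, 0⟩, 0, ⟨by linarith, hR⟩, rfl⟩
  obtain ⟨s0, hs0, hmin⟩ := hSc.exists_isMinOn hSn (hX.diff.continuous.norm).continuousOn
  have hδ : 0 < ‖X s0‖ := by
    obtain ⟨y, hy, rfl⟩ := hs0
    exact norm_pos_iff.mpr (hno y (abs_le.mpr hy))
  have hunif : TendstoUniformlyOn (fun (N : ℕ) (w : ℂ) => (Q N).eval w) X atTop S :=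
    (tendstoLocallyUniformlyOn_iff_tendstoUniformlyOn_of_compact hSc).mp
      (hlim.tendstoLocallyUniformlyOn (s := S))
  rw [Metric.tendstoUniformlyOn_iff] at hunif
  refine le_of_tendsto_of_tendsto h1 (h2.const_mul M) ?_
  filter_upwards [hunif _ hδ] with n hn
  show (logDeriv (fun w => (Q n).eval w) ⟨x, t⟩).re ≤
    M * (logDeriv (fun w => (Q n).eval w) ⟨1, 0⟩).re
  rw [re_poly' (Q n) (hQ n) hx, re_poly' (Q n) (hQ n) one_pos, ← Multiset.sum_map_mul_left]
  refine Multiset.sum_map_le_sum_map _ _ fun r hr => ?_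
  have hroot : (Q n).IsRoot r := (Polynomial.mem_roots'.mp hr).2
  have hre : r.re = 0 := hQ n r hroot
  refine hM r.im ?_
  by_contra hcon
  rw [not_lt] at hcon
  have hrS : r ∈ S := ⟨r.im, abs_le.mp hcon, by apply Complex.ext <;> simp [hre]⟩
  have h3 := hn r hrS
  rw [Polynomial.IsRoot.def] at hroot
  rw [hroot, dist_zero_right] at h3
  have h4 := hmin hrS
  simp only [Set.mem_ofPred_eq] at h4
  linarith

end Pool.Agent.Q92.GX
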