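import Pool.Agent.Q92.GX.Poi0

/-! # Project GX of helper260: job POI, second part: the Poisson sum over the zeros -/

set_option autoImplicit false

namespace Pool.Agent.Q92.GX

open Complex Filter Topology
open Pool.Agent.Q68.HV

lemma re_one_div {ρ : ℂ} (hρ : ρ.re = 0) {x : ℝ} (t : ℝ) :
    (1 / ((⟨x, t⟩ : ℂ) - ρ)).re = Pk x (t - ρ.im) := by
  rw [one_div, Complex.inv_re, Complex.normSq_apply, Complex.sub_re, Complex.sub_im, hρ, sub_zero]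
  unfold Pk
  rw [sq, sq]

lemma Hy.one_le {X : ℂ → ℂ} (hX : Hy X) {ρ : ℂ} (hρ : X ρ = 0) : 1 ≤ analyticOrderNatAt X ρ := by
  by_contra hcon
  have h0 : analyticOrderNatAt X ρ = 0 := by omega
  have h1 := Nat.cast_analyticOrderNatAt (hX.order_ne_top ρ)
  rw [h0, Nat.cast_zero] at h1
  exact (AnalyticAt.analyticOrderAt_eq_zero (hX.diff.analyticAt ρ)).mp h1.symm hρ

/-- removing finitely many zeros -/
lemma Hy.key {X : ℂ → ℂ} (hX : Hy X) (F : Finset {z : ℂ // X z = 0}) :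
    ∃ Y, Hy Y ∧ (∀ x t : ℝ, 0 < x → (logDeriv X ⟨x, t⟩).re =
        ∑ ρ ∈ F, (analyticOrderNatAt X ρ : ℝ) * Pk x (t - (ρ : ℂ).im) + (logDeriv Y ⟨x, t⟩).re) ∧
      (∀ ρ ∈ F, Y ρ ≠ 0) ∧ (∀ z, Y z = 0 → X z = 0) := by
  classical
  obtain ⟨Y, hY, h1, h2, -, h4⟩ := removeF hX (F.map (Function.Embedding.subtype _)) (by
    intro ρ hρ
    rw [Finset.mem_map] at hρ
    obtain ⟨r, -, rfl⟩ := hρ
    exact hX.zer _ r.2)
  refine ⟨Y, hY, fun x t hx => ?_, fun ρ hρ => h2 ρ (Finset.mem_map_of_mem _ hρ), h4⟩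
  rw [h1 ⟨x, t⟩ hx, Complex.add_re, Finset.sum_map, Complex.re_sum]
  congr 1
  refine Finset.sum_congr rfl fun ρ _ => ?_
  have h5 : ((analyticOrderNatAt X ((Function.Embedding.subtype fun z : ℂ => X z = 0) ρ) : ℕ) : ℂ) =
      (((analyticOrderNatAt X ρ : ℕ) : ℝ) : ℂ) := by
    rw [Function.Embedding.subtype_apply]
    push_cast
    rfl
  rw [h5, Complex.re_ofReal_mul, Function.Embedding.subtype_apply, re_one_div (hX.zer _ ρ.2)]

lemma Hy.fin_le {X : ℂ → ℂ} (hX : Hy X) (F : Finset {z : ℂ // X z = 0}) {x : ℝ} (hx : 0 < x)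
    (t : ℝ) : ∑ ρ ∈ F, (analyticOrderNatAt X ρ : ℝ) * Pk x (t - (ρ : ℂ).im) ≤
      (logDeriv X ⟨x, t⟩).re := by
  obtain ⟨Y, hY, h1, -, -⟩ := hX.key F
  rw [h1 x t hx]
  exact le_add_of_nonneg_right (hY.pos hx t)

lemma Hy.term_nonneg {X : ℂ → ℂ} {x : ℝ} (hx : 0 < x) (t : ℝ)
    (ρ : {z : ℂ // X z = 0}) : 0 ≤ (analyticOrderNatAt X ρ : ℝ) * Pk x (t - (ρ : ℂ).im) :=
  mul_nonneg (Nat.cast_nonneg _) (Pk_nonneg hx _)

lemma Hy.summ {X : ℂ → ℂ} (hX : Hy X) {x : ℝ} (hx : 0 < x) (t : ℝ) :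
    Summable fun ρ : {z : ℂ // X z = 0} => (analyticOrderNatAt X ρ : ℝ) * Pk x (t - (ρ : ℂ).im) :=
  summable_of_sum_le (fun ρ => Hy.term_nonneg hx t ρ) fun F => hX.fin_le F hx t

/-- finitely many zeros in a bounded region -/
lemma Hy.finite {X : ℂ → ℂ} (hX : Hy X) (R : ℝ) :
    {ρ : {z : ℂ // X z = 0} | |(ρ : ℂ).im| ≤ R}.Finite := by
  have h1 := (hX.summ one_pos 0).tendsto_cofinite_zero
  have h2 : ∀ᶠ ρ : {z : ℂ // X z = 0} in cofinite,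
      (analyticOrderNatAt X ρ : ℝ) * Pk 1 (0 - (ρ : ℂ).im) < 1 / (1 + R ^ 2) :=
    h1.eventually (gt_mem_nhds (by positivity))
  rw [Filter.eventually_cofinite] at h2
  refine h2.subset fun ρ hρ => ?_
  rw [Set.mem_ofPred_eq] at hρ ⊢
  rw [not_lt]
  have h3 : (1 : ℝ) ≤ (analyticOrderNatAt X ρ : ℝ) := by exact_mod_cast hX.one_le ρ.2
  have h4 : 1 / (1 + R ^ 2) ≤ Pk 1 (0 - (ρ : ℂ).im) := by
    unfold Pk
    refine div_le_div_of_nonneg_left zero_le_one (by positivity) ?_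
    have h5 : (ρ : ℂ).im ^ 2 ≤ R ^ 2 := by
      rw [← sq_abs]
      exact pow_le_pow_left₀ (abs_nonneg _) hρ 2
    rw [zero_sub, neg_sq]
    linarith
  calc 1 / (1 + R ^ 2) ≤ Pk 1 (0 - (ρ : ℂ).im) := h4
    _ ≤ _ := le_mul_of_one_le_left (Pk_nonneg one_pos _) h3

/-- the comparison of the kernels for large ordinates -/
lemma Pk_far {x t ε : ℝ} (hx : 0 < x) (hε : 0 < ε) {γ : ℝ}
    (hγ : (2 * (1 + ε) * |t| + 1) / ε + 1 < |γ|) :
    Pk x (t - γ) ≤ (x * (1 + ε)) * Pk 1 (0 - γ) := by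
  have ht : 0 ≤ |t| := abs_nonneg t
  have h1 : (2 * (1 + ε) * |t| + 1) / ε < |γ| := by linarith
  have h2 : 2 * (1 + ε) * |t| + 1 < ε * |γ| := by
    rw [div_lt_iff₀ hε] at h1
    linarith
  have h3 : 1 ≤ |γ| := by
    have : 0 ≤ (2 * (1 + ε) * |t| + 1) / ε := by positivity
    linarith
  have h4 : 1 + γ ^ 2 ≤ (1 + ε) * (x ^ 2 + (t - γ) ^ 2) := by
    have h5 : (|γ| - |t|) ^ 2 ≤ (t - γ) ^ 2 := by
      have h6 : t * γ ≤ |t| * |γ| := by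
        rw [← abs_mul]
        exact le_abs_self _
      have h7 : |γ| ^ 2 = γ ^ 2 := sq_abs γ
      have h8 : |t| ^ 2 = t ^ 2 := sq_abs t
      nlinarith
    have h9 : |γ| ^ 2 = γ ^ 2 := sq_abs γ
    have h10 : 2 * (1 + ε) * |t| * |γ| + |γ| ≤ ε * |γ| * |γ| := by nlinarith
    have h11 : 0 ≤ (1 + ε) * (x ^ 2 + |t| ^ 2) := by positivity
    nlinarith
  unfold Pk
  rw [mul_div_assoc', div_le_div_iff₀ (by
    have : 0 < x ^ 2 := by positivity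
    nlinarith [sq_nonneg (t - γ)]) (by positivity)]
  have h12 : (0 - γ) ^ 2 = γ ^ 2 := by ring
  rw [h12]
  nlinarith

lemma Hy.upper_tsum {X : ℂ → ℂ} (hX : Hy X) {x : ℝ} (hx : 0 < x) (t : ℝ) {ε : ℝ} (hε : 0 < ε) :
    (logDeriv X ⟨x, t⟩).re ≤
      (∑' ρ : {z : ℂ // X z = 0}, (analyticOrderNatAt X ρ : ℝ) * Pk x (t - (ρ : ℂ).im)) +
        (x * (1 + ε)) * (logDeriv X ⟨1, 0⟩).re := by
  set R : ℝ := (2 * (1 + ε) * |t| + 1) / ε + 1 with hR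
  have hR0 : 0 ≤ R := by positivity
  obtain ⟨Y, hY, h1, h2, h3⟩ := hX.key (hX.finite R).toFinset
  have hno : ∀ y : ℝ, |y| ≤ R → Y ⟨0, y⟩ ≠ 0 := by
    intro y hy h0
    have h4 := h3 _ h0
    refine h2 ⟨⟨0, y⟩, h4⟩ ?_ h0
    rw [Set.Finite.mem_toFinset]
    exact hy
  have h5 := hY.upper hx t hR0 hno (M := x * (1 + ε)) fun γ hγ => Pk_far hx hε hγ
  have h6 := h1 x t hx
  have h7 := h1 1 0 one_pos
  have h8 : (logDeriv Y ⟨1, 0⟩).re ≤ (logDeriv X ⟨1, 0⟩).re := by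
    rw [h7]
    exact le_add_of_nonneg_left (Finset.sum_nonneg fun ρ _ => Hy.term_nonneg one_pos 0 ρ)
  have h9 := (hX.summ hx t).sum_le_tsum (hX.finite R).toFinset fun ρ _ => Hy.term_nonneg hx t ρ
  have h10 : (x * (1 + ε)) * (logDeriv Y ⟨1, 0⟩).re ≤ (x * (1 + ε)) * (logDeriv X ⟨1, 0⟩).re :=
    mul_le_mul_of_nonneg_left h8 (by positivity)
  linarith

theorem poi_core {X : ℂ → ℂ} (hX : Hy X) :
    (Summable fun ρ : {z : ℂ // X z = 0} =>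
      (analyticOrderNatAt X ρ : ℝ) * (1 / (1 + (ρ : ℂ).im ^ 2))) ∧
    ∃ c : ℝ, 0 ≤ c ∧ ∀ x t : ℝ, 0 < x → x ≤ 1 →
      ∑' ρ : {z : ℂ // X z = 0}, (analyticOrderNatAt X ρ : ℝ) * Pk x (t - (ρ : ℂ).im) ≤
        (logDeriv X ⟨x, t⟩).re ∧
      (logDeriv X ⟨x, t⟩).re ≤ (∑' ρ : {z : ℂ // X z = 0},
        (analyticOrderNatAt X ρ : ℝ) * Pk x (t - (ρ : ℂ).im)) + c * x ∧
      ‖logDeriv X ⟨x, t⟩ - logDeriv X ⟨1, t⟩‖ ≤ 4 / x * (logDeriv X ⟨1, t⟩).re := by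
  refine ⟨?_, (logDeriv X ⟨1, 0⟩).re, hX.pos one_pos 0, fun x t hx hx1 => ⟨?_, ?_, ?_⟩⟩
  · refine (hX.summ one_pos 0).congr fun ρ => ?_
    congr 1
    unfold Pk
    ring
  · exact (hX.summ hx t).tsum_le_of_sum_le fun F => hX.fin_le F hx t
  · refine le_of_forall_pos_le_add fun δ hδ => ?_
    have hc := hX.pos one_pos 0
    set c := (logDeriv X ⟨1, 0⟩).re with hcdef
    have hxc : 0 < x * c + 1 := by positivity
    have h1 := hX.upper_tsum hx t (ε := δ / (x * c + 1)) (by positivity)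
    rw [← hcdef] at h1
    have h2 : x * c * (δ / (x * c + 1)) ≤ δ := by
      rw [mul_div_assoc', div_le_iff₀ hxc]
      nlinarith
    nlinarith
  · refine (hX.dist hx hx1 t).trans ?_
    refine mul_le_mul_of_nonneg_right ?_ (hX.pos one_pos t)
    exact div_le_div_of_nonneg_right (by norm_num) hx.le

end Pool.Agent.Q92.GX
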